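import Mathlib

set_option autoImplicit false

namespace Q217.KT

open MeasureTheory

/-- A plain machine is optimal if it describes every string at least as well, up to an additive
constant, as any other plain machine (partial computable function on strings). -/
def OptimalPlain (V : List Bool →. List Bool) : Prop :=
  Partrec V ∧ ∀ M : List Bool →. List Bool, Partrec M →
    ∃ c : ℕ, ∀ p x, x ∈ M p → ∃ q : List Bool, q.length ≤ p.length + c ∧ x ∈ V q

/-- A prefix-free machine: a partial computable function on strings with prefix-free domain. -/
def PrefixFree (M : List Bool →. List Bool) : Prop :=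
  Partrec M ∧ ∀ p q : List Bool, (M p).Dom → (M q).Dom → p <+: q → p = q

/-- Optimal prefix-free machines. -/
def OptimalPrefixFree (U : List Bool →. List Bool) : Prop :=
  PrefixFree U ∧ ∀ M : List Bool →. List Bool, PrefixFree M →
    ∃ c : ℕ, ∀ p x, x ∈ M p → ∃ q : List Bool, q.length ≤ p.length + c ∧ x ∈ U q

/-- The complexity with respect to a machine: the length of the shortest description. It is
plain complexity `C` for an optimal plain machine, prefix-free complexity `K` for an optimal
prefix-free machine. -/
noncomputable def cx (M : List Bool →. List Bool) (x : List Bool) : ℕ :=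
  sInf {n | ∃ p : List Bool, p.length = n ∧ x ∈ M p}

/-- The string identified with the number `n`: the binary expansion of `n + 1` without its
leading `1`. -/
def natStr (n : ℕ) : List Bool :=
  ((List.range (Nat.log 2 (n + 1))).map fun i => decide ((n + 1) / 2 ^ i % 2 = 1)).reverse

/-- The cylinder of the sequences extending the string `x`. -/
def cyl (x : List Bool) : Set (ℕ → Bool) := {X | ∀ (i : ℕ) (h : i < x.length), X i = x[i]}

/-- The `μ`-average of the complexity with respect to `M` at length `n`: the sum over all
strings `x` of length `n` of `μ[x]` times the complexity of `x`. -/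
noncomputable def avg (M : List Bool →. List Bool) (μ : Measure (ℕ → Bool)) (n : ℕ) : ℝ :=
  ∑ f : Fin n → Bool, μ.real (cyl (List.ofFn f)) * (cx M (List.ofFn f) : ℝ)

/-- `μ` is trivial with respect to `M`: the average at length `n` exceeds the complexity of `n`
at most by a constant. It is `C`-triviality for an optimal plain machine and `K`-triviality
for an optimal prefix-free machine. -/
def TrivialMeasure (M : List Bool →. List Bool) (μ : Measure (ℕ → Bool)) : Prop :=
  ∃ c : ℝ, ∀ n : ℕ, avg M μ n ≤ (cx M (natStr n) : ℝ) + c

end Q217.KT
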