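import Pool.Agent.Q217.KT.Defs
import Pool.Agent.Q217.CO.Run
import Pool.Agent.Q217.CO.Enum

set_option autoImplicit false

/-! The combinatorial lemma: rich strings have small complexity. -/

namespace Q217.KT

open Pool.Agent.Helper444.CKGame (num num_cons num_append num_lt num_inj exists_num card_short)
open Q217.CO (primrec_sum primrec_pow primrec_num enum_graph)

theorem cx_le {M : List Bool →. List Bool} {p x : List Bool} (h : x ∈ M p) :
    cx M x ≤ p.length := Nat.sInf_le ⟨p, rfl, h⟩

theorem cx_spec {M : List Bool →. List Bool} {x : List Bool} (h : ∃ p, x ∈ M p) :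
    ∃ p : List Bool, p.length = cx M x ∧ x ∈ M p := by
  obtain ⟨p, hp⟩ := h
  exact Nat.sInf_mem (s := {n | ∃ p : List Bool, p.length = n ∧ x ∈ M p}) ⟨_, p, rfl, hp⟩

theorem num_bits (m L : ℕ) :
    num ((List.range L).map fun i => decide (m / 2 ^ i % 2 = 1)).reverse = m % 2 ^ L := by
  induction L with
  | zero =>
    simp [Pool.Agent.Helper444.CKGame.num_nil, Nat.mod_one]
  | succ L ih =>
    rw [List.range_succ, List.map_append, List.reverse_append]
    simp only [List.map_cons, List.map_nil, List.reverse_cons, List.reverse_nil, List.nil_append,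
      List.cons_append]
    rw [num_cons, ih, List.length_reverse, List.length_map, List.length_range, Nat.mod_pow_succ]
    rcases Nat.mod_two_eq_zero_or_one (m / 2 ^ L) with h | h <;> simp [h, Nat.add_comm]

theorem natStr_length (n : ℕ) : (natStr n).length = Nat.log 2 (n + 1) := by
  unfold natStr
  simp

theorem num_natStr (n : ℕ) : num (true :: natStr n) = n + 1 := by
  rw [num_cons, natStr_length]
  unfold natStr
  rw [num_bits]
  have h1 := Nat.pow_log_le_self 2 (show n + 1 ≠ 0 by omega)
  have h2 := Nat.lt_pow_succ_log_self (b := 2) (by norm_num) (n + 1)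
  set L := Nat.log 2 (n + 1)
  have h3 : (n + 1) % 2 ^ L = n + 1 - 2 ^ L := by
    rw [Nat.mod_eq_sub_mod h1, Nat.mod_eq_of_lt]
    rw [pow_succ] at h2
    omega
  rw [h3]
  simp
  omega

theorem primrec_natStr : Primrec natStr := by
  have hlog : Primrec fun n : ℕ => Nat.log 2 (n + 1) := by
    have hp : PrimrecRel fun n L : ℕ => 2 ^ L ≤ n + 1 :=
      Primrec.nat_le.comp (primrec_pow.comp (Primrec.const 2) Primrec.snd)
        (Primrec.succ.comp Primrec.fst)
    refine (Primrec.nat_findGreatest (f := fun n : ℕ => n + 1) (p := fun n L => 2 ^ L ≤ n + 1)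
      Primrec.succ hp).of_eq fun n => ?_
    rw [Nat.findGreatest_eq_iff]
    refine ⟨?_, fun _ => Nat.pow_log_le_self 2 (by omega), fun L hL _ hcon => ?_⟩
    · exact Nat.log_le_self 2 (n + 1)
    · have h1 := Nat.lt_pow_succ_log_self (b := 2) (by norm_num) (n + 1)
      have h2 : 2 ^ (Nat.log 2 (n + 1) + 1) ≤ 2 ^ L := Nat.pow_le_pow_right (by norm_num) hL
      omega
  refine Primrec.list_reverse.comp (Primrec.list_map (Primrec.list_range.comp hlog) ?_)
  have h : PrimrecRel fun n i : ℕ => (n + 1) / 2 ^ i % 2 = 1 :=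
    Primrec.eq.comp (Primrec.nat_mod.comp (Primrec.nat_div.comp
      (Primrec.succ.comp Primrec.fst) (primrec_pow.comp (Primrec.const 2) Primrec.snd))
      (Primrec.const 2)) (Primrec.const 1)
  exact h.decide

section Rich

variable (eV : ℕ → Option (List Bool × List Bool))

/-- Item `i` shows that some `y` of length `l` extending `x` has a description of length at
most `b`. -/
def hitI (n l b : ℕ) (x : List Bool) (i : ℕ) : Prop :=
  ∃ o ∈ (eV i).toList, o.1.length ≤ b ∧ o.2.length = l ∧ o.2.take n = x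

/-- Such an item has been found by stage `t`. -/
def hitT (n l b : ℕ) (x : List Bool) (t : ℕ) : Prop := ∃ i ∈ List.range t, hitI eV n l b x i

instance (n l b : ℕ) (x : List Bool) (i : ℕ) : Decidable (hitI eV n l b x i) := by
  unfold hitI; infer_instance

instance (n l b : ℕ) (x : List Bool) (t : ℕ) : Decidable (hitT eV n l b x t) := by
  unfold hitT; infer_instance

/-- The number of good lengths found by stage `t`. -/
def cnt (n a : ℕ) (x : List Bool) (t : ℕ) : ℕ :=
  ∑ m ∈ Finset.range (2 ^ n), if hitT eV n (2 ^ n - 1 + m) (n + a) x t then 1 else 0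

/-- The string `x` is rich at stage `t`. -/
def richT (n a : ℕ) (x : List Bool) (t : ℕ) : Prop := x.length = n ∧ 2 ^ n ≤ 2 * cnt eV n a x t

instance (n a : ℕ) (x : List Bool) (t : ℕ) : Decidable (richT eV n a x t) := by
  unfold richT; infer_instance

variable {eV}

theorem prim_hitT (he : Primrec eV) :
    PrimrecPred fun z : (ℕ × ℕ × ℕ × List Bool) × ℕ =>
      hitT eV z.1.1 z.1.2.1 z.1.2.2.1 z.1.2.2.2 z.2 := by
  have h1 : PrimrecRel fun (o : List Bool × List Bool) (z : ℕ × ℕ × ℕ × List Bool) =>
      o.1.length ≤ z.2.2.1 ∧ o.2.length = z.2.1 ∧ o.2.take z.1 = z.2.2.2 := by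
    refine PrimrecPred.and (Primrec.nat_le.comp (Primrec.list_length.comp (Primrec.fst.comp
      Primrec.fst)) (Primrec.fst.comp (Primrec.snd.comp (Primrec.snd.comp Primrec.snd))))
      (PrimrecPred.and (Primrec.eq.comp (Primrec.list_length.comp (Primrec.snd.comp
      Primrec.fst)) (Primrec.fst.comp (Primrec.snd.comp Primrec.snd))) (Primrec.eq.comp
      (Primrec.list_take.comp (Primrec.fst.comp Primrec.snd) (Primrec.snd.comp Primrec.fst))
      (Primrec.snd.comp (Primrec.snd.comp (Primrec.snd.comp Primrec.snd)))))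
  have h2 : PrimrecRel fun (i : ℕ) (z : ℕ × ℕ × ℕ × List Bool) =>
      hitI eV z.1 z.2.1 z.2.2.1 z.2.2.2 i :=
    (PrimrecRel.exists_mem_list h1).comp (Primrec.optionToList.comp (he.comp Primrec.fst))
      Primrec.snd
  exact (PrimrecRel.exists_mem_list h2).comp (Primrec.list_range.comp Primrec.snd) Primrec.fst

theorem prim_cnt (he : Primrec eV) :
    Primrec fun z : (ℕ × ℕ × List Bool) × ℕ => cnt eV z.1.1 z.1.2.1 z.1.2.2 z.2 := by
  have hpow : Primrec fun z : (ℕ × ℕ × List Bool) × ℕ => 2 ^ z.1.1 :=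
    primrec_pow.comp (Primrec.const 2) (Primrec.fst.comp Primrec.fst)
  refine primrec_sum (f := fun (z : (ℕ × ℕ × List Bool) × ℕ) m =>
    if hitT eV z.1.1 (2 ^ z.1.1 - 1 + m) (z.1.1 + z.1.2.1) z.1.2.2 z.2 then 1 else 0)
    (g := fun z => 2 ^ z.1.1) ?_ hpow
  refine Primrec₂.mk (Primrec.ite ?_ (Primrec.const 1) (Primrec.const 0))
  refine (prim_hitT he).comp (Primrec.pair (Primrec.pair (Primrec.fst.comp (Primrec.fst.comp
    Primrec.fst)) (Primrec.pair ?_ (Primrec.pair ?_ (Primrec.snd.comp (Primrec.snd.comp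
    (Primrec.fst.comp Primrec.fst)))))) (Primrec.snd.comp Primrec.fst))
  · exact Primrec.nat_add.comp (Primrec.nat_sub.comp (hpow.comp Primrec.fst) (Primrec.const 1))
      Primrec.snd
  · exact Primrec.nat_add.comp (Primrec.fst.comp (Primrec.fst.comp Primrec.fst))
      (Primrec.fst.comp (Primrec.snd.comp (Primrec.fst.comp Primrec.fst)))

theorem prim_richT (he : Primrec eV) :
    PrimrecPred fun z : (ℕ × ℕ × List Bool) × ℕ => richT eV z.1.1 z.1.2.1 z.1.2.2 z.2 := by
  refine PrimrecPred.and (Primrec.eq.comp (Primrec.list_length.comp (Primrec.snd.comp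
    (Primrec.snd.comp Primrec.fst))) (Primrec.fst.comp Primrec.fst)) ?_
  exact Primrec.nat_le.comp (primrec_pow.comp (Primrec.const 2) (Primrec.fst.comp Primrec.fst))
    (Primrec.nat_mul.comp (Primrec.const 2) (prim_cnt he))

theorem hitT_mono {n l b : ℕ} {x : List Bool} {s t : ℕ} (hst : s ≤ t)
    (h : hitT eV n l b x s) : hitT eV n l b x t := by
  obtain ⟨i, hi, h⟩ := h
  exact ⟨i, List.mem_range.2 ((List.mem_range.1 hi).trans_le hst), h⟩

theorem cnt_mono {n a : ℕ} {x : List Bool} {s t : ℕ} (hst : s ≤ t) :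
    cnt eV n a x s ≤ cnt eV n a x t := by
  unfold cnt
  refine Finset.sum_le_sum fun m _ => ?_
  by_cases h : hitT eV n (2 ^ n - 1 + m) (n + a) x s
  · rw [if_pos h, if_pos (hitT_mono hst h)]
  · rw [if_neg h]
    exact Nat.zero_le _

theorem richT_mono {n a : ℕ} {x : List Bool} {s t : ℕ} (hst : s ≤ t)
    (h : richT eV n a x s) : richT eV n a x t :=
  ⟨h.1, h.2.trans (Nat.mul_le_mul_left 2 (cnt_mono hst))⟩

theorem not_richT_zero {n a : ℕ} {x : List Bool} : ¬ richT eV n a x 0 := by
  rintro ⟨-, h⟩
  have h0 : cnt eV n a x 0 = 0 := by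
    unfold cnt
    refine Finset.sum_eq_zero fun m _ => if_neg ?_
    rintro ⟨i, hi, -⟩
    exact absurd hi (by simp)
  rw [h0] at h
  have : 0 < 2 ^ n := by positivity
  omega

/-- There are few rich strings. -/
theorem card_rich (he3 : ∀ m n q x y, eV m = some (q, x) → eV n = some (q, y) → m = n)
    (n a t : ℕ) (R : Finset (List Bool)) (hR : ∀ x ∈ R, richT eV n a x t) :
    R.card < 2 ^ (a + 2) := by
  classical
  -- the pairs (string, length)
  let Q : Finset (List Bool × ℕ) := (R ×ˢ Finset.range (2 ^ n)).filter fun z =>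
    hitT eV n (2 ^ n - 1 + z.2) (n + a) z.1 t
  have hQ : Q.card = ∑ x ∈ R, cnt eV n a x t := by
    have h1 : Q.card = ∑ z ∈ R ×ˢ Finset.range (2 ^ n),
        if hitT eV n (2 ^ n - 1 + z.2) (n + a) z.1 t then 1 else 0 := by
      rw [Finset.card_filter]
    rw [h1, Finset.sum_product]
    rfl
  have hch : ∀ z ∈ Q, ∃ q : List Bool, q.length ≤ n + a ∧ ∃ i y, eV i = some (q, y) ∧
      y.length = 2 ^ n - 1 + z.2 ∧ y.take n = z.1 := by
    intro z hz
    obtain ⟨i, hi, o, ho, h1, h2, h3⟩ := (Finset.mem_filter.1 hz).2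
    have ho' : eV i = some o := by
      cases h : eV i with
      | none => rw [h] at ho; exact absurd ho (by simp)
      | some o' =>
        rw [h] at ho
        simp only [Option.toList_some, List.mem_singleton] at ho
        rw [ho]
    exact ⟨o.1, h1, i, o.2, ho', h2, h3⟩
  choose! q hq hq' using hch
  have hinj : Set.InjOn q Q := by
    intro z hz z' hz' hzz
    obtain ⟨i, y, h1, h2, h3⟩ := hq' z hz
    obtain ⟨i', y', h1', h2', h3'⟩ := hq' z' hz'
    rw [← hzz] at h1'
    have h4 := he3 _ _ _ _ _ h1 h1'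
    rw [h4, h1'] at h1
    have h5 : y' = y := (Prod.mk.injEq _ _ _ _ ▸ Option.some_injective _ h1).2
    rw [h5] at h2' h3'
    refine Prod.ext ?_ ?_
    · rw [← h3, ← h3']
    · omega
  have hcard : Q.card < 2 ^ (n + a + 1) := by
    rw [← Finset.card_image_of_injOn hinj]
    refine card_short _ _ ?_
    intro p hp
    obtain ⟨z, hz, rfl⟩ := Finset.mem_image.1 hp
    exact hq z hz
  have hsum : 2 ^ n * R.card ≤ 2 * ∑ x ∈ R, cnt eV n a x t := by
    rw [Finset.mul_sum, Nat.mul_comm, ← smul_eq_mul, ← Finset.sum_const]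
    exact Finset.sum_le_sum fun x hx => (hR x hx).2
  rw [← hQ] at hsum
  have h6 : 2 ^ n * R.card < 2 ^ n * 2 ^ (a + 2) := by
    have h7 : 2 ^ n * 2 ^ (a + 2) = 2 * 2 ^ (n + a + 1) := by
      rw [← pow_add, ← pow_succ']
      congr 1
    rw [h7]
    omega
  exact Nat.lt_of_mul_lt_mul_left h6

variable (eV)

/-- The enumeration of the rich strings: `x` appears at the time `pair s (code x)` if it becomes
rich between the stages `s` and `s + 1`. -/
def newR (n a t : ℕ) : Option (List Bool) :=
  (Encodable.decode₂ (List Bool) t.unpair.2).bind fun x =>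
    if richT eV n a x (t.unpair.1 + 1) ∧ ¬ richT eV n a x t.unpair.1 then some x else none

/-- The number of strings enumerated before time `t`. -/
def cntR (n a t : ℕ) : ℕ :=
  ∑ t' ∈ Finset.range t, if (newR eV n a t').isSome then 1 else 0

variable {eV}

theorem newR_eq {n a t : ℕ} {x : List Bool} : newR eV n a t = some x ↔
    (t.unpair.2 = Encodable.encode x ∧ richT eV n a x (t.unpair.1 + 1) ∧
      ¬ richT eV n a x t.unpair.1) := by
  unfold newR
  rw [Option.bind_eq_some_iff]
  constructor
  · rintro ⟨y, h1, h2⟩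
    by_cases h : richT eV n a y (t.unpair.1 + 1) ∧ ¬ richT eV n a y t.unpair.1
    · rw [if_pos h] at h2
      rw [← Option.some_injective _ h2]
      exact ⟨(Encodable.mem_decode₂.1 h1).symm, h⟩
    · rw [if_neg h] at h2
      exact absurd h2 (by simp)
  · rintro ⟨h1, h2⟩
    exact ⟨x, Encodable.mem_decode₂.2 h1.symm, if_pos h2⟩

theorem exists_newR {n a t : ℕ} {x : List Bool} (h : richT eV n a x t) :
    ∃ t', newR eV n a t' = some x := by
  induction t with
  | zero => exact absurd h not_richT_zero
  | succ t ih =>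
    by_cases h' : richT eV n a x t
    · exact ih h'
    · refine ⟨Nat.pair t (Encodable.encode x), ?_⟩
      rw [newR_eq, Nat.unpair_pair]
      exact ⟨rfl, h, h'⟩

theorem cntR_lt {n a t t' : ℕ} (htt : t < t') (h : (newR eV n a t).isSome) :
    cntR eV n a t < cntR eV n a t' := by
  have h1 : cntR eV n a (t + 1) ≤ cntR eV n a t' := by
    unfold cntR
    exact Finset.sum_le_sum_of_subset (Finset.range_mono htt)
  have h2 : cntR eV n a (t + 1) = cntR eV n a t + 1 := by
    unfold cntR
    rw [Finset.sum_range_succ, if_pos h]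
  omega

theorem cntR_inj {n a t t' : ℕ} (h : (newR eV n a t).isSome) (h' : (newR eV n a t').isSome)
    (hc : cntR eV n a t = cntR eV n a t') : t = t' := by
  rcases lt_trichotomy t t' with hlt | heq | hlt
  · have := cntR_lt hlt h
    omega
  · exact heq
  · have := cntR_lt hlt h'
    omega

/-- The index of a rich string is small. -/
theorem cntR_bound (he3 : ∀ m n q x y, eV m = some (q, x) → eV n = some (q, y) → m = n)
    {n a t : ℕ} : cntR eV n a t < 2 ^ (a + 2) := by
  classical
  let S : Finset ℕ := (Finset.range t).filter fun t' => (newR eV n a t').isSome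
  have h1 : cntR eV n a t = S.card := by
    unfold cntR
    rw [Finset.card_filter]
  have h2 : ∀ t' ∈ S, ∃ x, newR eV n a t' = some x := fun t' ht' =>
    Option.isSome_iff_exists.1 (Finset.mem_filter.1 ht').2
  choose! x hx using h2
  have hinj : Set.InjOn x S := by
    intro s hs s' hs' hss
    have a1 := newR_eq.1 (hx s hs)
    have a2 := newR_eq.1 (hx s' hs')
    rw [← hss] at a2
    have e2 : s.unpair.2 = s'.unpair.2 := by rw [a1.1, a2.1]
    have e1 : s.unpair.1 = s'.unpair.1 := by
      by_contra hne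
      rcases lt_or_gt_of_ne hne with h | h
      · exact a2.2.2 (richT_mono h a1.2.1)
      · exact a1.2.2 (richT_mono h a2.2.1)
    rw [← Nat.pair_unpair s, ← Nat.pair_unpair s', e1, e2]
  rw [h1, ← Finset.card_image_of_injOn hinj]
  refine card_rich he3 n a (S.sup (fun s => s.unpair.1 + 1)) _ ?_
  intro y hy
  obtain ⟨s, hs, rfl⟩ := Finset.mem_image.1 hy
  exact richT_mono (Finset.le_sup (f := fun s : ℕ => s.unpair.1 + 1) hs) (newR_eq.1 (hx s hs)).2.1

theorem prim_newR (he : Primrec eV) :
    Primrec fun z : (ℕ × ℕ) × ℕ => newR eV z.1.1 z.1.2 z.2 := by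
  have h1 : Primrec fun z : (ℕ × ℕ) × ℕ => Encodable.decode₂ (List Bool) z.2.unpair.2 :=
    Primrec.decode₂.comp (Primrec.snd.comp (Primrec.unpair.comp Primrec.snd))
  refine Primrec.option_bind h1 (Primrec₂.mk ?_)
  have n1 : Primrec fun z : ((ℕ × ℕ) × ℕ) × List Bool => z.1.1.1 :=
    Primrec.fst.comp (Primrec.fst.comp Primrec.fst)
  have n2 : Primrec fun z : ((ℕ × ℕ) × ℕ) × List Bool => z.1.1.2 :=
    Primrec.snd.comp (Primrec.fst.comp Primrec.fst)
  have n3 : Primrec fun z : ((ℕ × ℕ) × ℕ) × List Bool => z.1.2.unpair.1 :=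
    Primrec.fst.comp (Primrec.unpair.comp (Primrec.snd.comp Primrec.fst))
  refine Primrec.ite (PrimrecPred.and ?_ (PrimrecPred.not ?_))
    (Primrec.option_some.comp Primrec.snd) (Primrec.const none)
  · exact (prim_richT he).comp (Primrec.pair (Primrec.pair n1 (Primrec.pair n2 Primrec.snd))
      (Primrec.succ.comp n3))
  · exact (prim_richT he).comp (Primrec.pair (Primrec.pair n1 (Primrec.pair n2 Primrec.snd)) n3)

theorem prim_cntR (he : Primrec eV) :
    Primrec fun z : (ℕ × ℕ) × ℕ => cntR eV z.1.1 z.1.2 z.2 := by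
  refine primrec_sum (f := fun (z : (ℕ × ℕ) × ℕ) t' =>
    if (newR eV z.1.1 z.1.2 t').isSome then 1 else 0) (g := fun z => z.2) ?_ Primrec.snd
  have h : Primrec fun z : ((ℕ × ℕ) × ℕ) × ℕ => (newR eV z.1.1.1 z.1.1.2 z.2).isSome :=
    Primrec.option_isSome.comp ((prim_newR he).comp (Primrec.pair (Primrec.fst.comp Primrec.fst)
      Primrec.snd))
  refine Primrec₂.mk ((Primrec.cond h (Primrec.const 1) (Primrec.const 0)).of_eq fun z => ?_)
  cases (newR eV z.1.1.1 z.1.1.2 z.2).isSome <;> rfl

/-! ### The machine -/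

variable (eV) (eU : ℕ → Option (List Bool × List Bool))

/-- The check whether `w` is `p`, followed by the code of `a` and a string of length `a + 2`
with the value `c`. -/
def okN (w p : List Bool) (a c : ℕ) : Bool :=
  decide (p ++ (List.replicate a true ++ [false]) = w.take (p.length + a + 1)) &&
    (decide (w.length = p.length + a + 1 + (a + 2)) &&
      decide (num (w.drop (p.length + a + 1)) = c))

/-- The output found by the search number `(i, a, t)`. -/
def outA (w : List Bool) (i a t : ℕ) : Option (List Bool) :=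
  (eU i).bind fun o => (newR eV (num (true :: o.2) - 1) a t).bind fun x =>
    bif okN w o.1 a (cntR eV (num (true :: o.2) - 1) a t) then some x else none

/-- The output found by the search number `k = (i, a, t)`. -/
def outN (w : List Bool) (k : ℕ) : Option (List Bool) :=
  outA eV eU w k.unpair.1 k.unpair.2.unpair.1 k.unpair.2.unpair.2

/-- The machine. -/
def machN (w : List Bool) : Part (List Bool) := Nat.rfindOpt (outN eV eU w)

variable {eV eU}

theorem okN_eq {w p : List Bool} {a c : ℕ} : okN w p a c = true ↔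
    ∃ s, w = p ++ (List.replicate a true ++ [false]) ++ s ∧ s.length = a + 2 ∧ num s = c := by
  have hlen : (p ++ (List.replicate a true ++ [false])).length = p.length + a + 1 := by
    simp [Nat.add_assoc]
  unfold okN
  rw [Bool.and_eq_true, Bool.and_eq_true, decide_eq_true_eq, decide_eq_true_eq,
    decide_eq_true_eq]
  constructor
  · rintro ⟨h5, h6, h7⟩
    refine ⟨w.drop (p.length + a + 1), ?_, ?_, h7⟩
    · rw [h5, List.take_append_drop]
    · rw [List.length_drop]
      omega
  · rintro ⟨s, h3, h4, h5⟩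
    refine ⟨?_, ?_, ?_⟩
    · rw [h3, ← hlen, List.take_left]
    · rw [h3, List.length_append, hlen, h4]
    · rw [h3, ← hlen, List.drop_left, h5]

theorem outN_eq {w : List Bool} {k : ℕ} {x : List Bool} : outN eV eU w k = some x ↔
    ∃ p ν s, eU k.unpair.1 = some (p, ν) ∧
      newR eV (num (true :: ν) - 1) k.unpair.2.unpair.1 k.unpair.2.unpair.2 = some x ∧
      w = p ++ (List.replicate k.unpair.2.unpair.1 true ++ [false]) ++ s ∧
      s.length = k.unpair.2.unpair.1 + 2 ∧
      num s = cntR eV (num (true :: ν) - 1) k.unpair.2.unpair.1 k.unpair.2.unpair.2 := by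
  unfold outN outA
  generalize k.unpair.1 = i
  generalize k.unpair.2.unpair.1 = a
  generalize k.unpair.2.unpair.2 = t
  rw [Option.bind_eq_some_iff]
  constructor
  · rintro ⟨⟨p, ν⟩, h1, h2⟩
    rw [Option.bind_eq_some_iff] at h2
    obtain ⟨x', h3, h4⟩ := h2
    dsimp only at h3 h4
    cases h : okN w p a (cntR eV (num (true :: ν) - 1) a t) with
    | false =>
      rw [h] at h4
      exact absurd h4 (by simp)
    | true =>
      rw [h] at h4
      have h8 : x' = x := Option.some_injective _ h4
      obtain ⟨s, h5, h6, h7⟩ := okN_eq.1 h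
      exact ⟨p, ν, s, h1, by rw [← h8]; exact h3, h5, h6, h7⟩
  · rintro ⟨p, ν, s, h1, h2, h3, h4, h5⟩
    refine ⟨(p, ν), h1, ?_⟩
    rw [Option.bind_eq_some_iff]
    refine ⟨x, h2, ?_⟩
    dsimp only
    rw [okN_eq.2 ⟨s, h3, h4, h5⟩]
    rfl

theorem primrec_decr : Primrec fun ν : List Bool => num (true :: ν) - 1 :=
  Primrec.nat_sub.comp (primrec_num.comp (Primrec.list_cons.comp (Primrec.const true)
    Primrec.id)) (Primrec.const 1)

theorem primrec_okN : Primrec fun z : (List Bool × List Bool) × ℕ × ℕ =>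
    okN z.1.1 z.1.2 z.2.1 z.2.2 := by
  have rep : Primrec fun a : ℕ => (List.replicate a true ++ [false]) := by
    have : Primrec fun a : ℕ => List.replicate a true := by
      refine (Primrec.list_map Primrec.list_range (g := fun _ _ => true)
        (Primrec₂.mk (Primrec.const true))).of_eq fun a => ?_
      simp
    exact Primrec.list_append.comp this (Primrec.const [false])
  let β : Type := (List Bool × List Bool) × ℕ × ℕ
  have w : Primrec fun z : β => z.1.1 := Primrec.fst.comp Primrec.fst
  have p : Primrec fun z : β => z.1.2 := Primrec.snd.comp Primrec.fst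
  have a : Primrec fun z : β => z.2.1 := Primrec.fst.comp Primrec.snd
  have c : Primrec fun z : β => z.2.2 := Primrec.snd.comp Primrec.snd
  have l : Primrec fun z : β => z.1.2.length + z.2.1 + 1 :=
    Primrec.succ.comp (Primrec.nat_add.comp (Primrec.list_length.comp p) a)
  have r : Primrec fun z : β => (List.replicate z.2.1 true ++ [false]) := rep.comp a
  have c1 : PrimrecPred fun z : β => z.1.2 ++ (List.replicate z.2.1 true ++ [false]) =
      z.1.1.take (z.1.2.length + z.2.1 + 1) :=
    Primrec.eq.comp (Primrec.list_append.comp p r) (Primrec.list_take.comp l w)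
  have c2 : PrimrecPred fun z : β => z.1.1.length = z.1.2.length + z.2.1 + 1 + (z.2.1 + 2) :=
    Primrec.eq.comp (Primrec.list_length.comp w) (Primrec.nat_add.comp l
      (Primrec.nat_add.comp a (Primrec.const 2)))
  have c3 : PrimrecPred fun z : β => num (z.1.1.drop (z.1.2.length + z.2.1 + 1)) = z.2.2 :=
    Primrec.eq.comp (primrec_num.comp (Primrec.list_drop.comp l w)) c
  exact Primrec.and.comp c1.decide (Primrec.and.comp c2.decide c3.decide)

theorem primrec_outA (heV : Primrec eV) (heU : Primrec eU) :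
    Primrec fun z : List Bool × ℕ × ℕ × ℕ => outA eV eU z.1 z.2.1 z.2.2.1 z.2.2.2 := by
  let β : Type := (List Bool × ℕ × ℕ × ℕ) × (List Bool × List Bool)
  let γ : Type := β × List Bool
  have n : Primrec fun z : β => num (true :: z.2.2) - 1 :=
    primrec_decr.comp (Primrec.snd.comp Primrec.snd)
  have a : Primrec fun z : β => z.1.2.2.1 :=
    Primrec.fst.comp (Primrec.snd.comp (Primrec.snd.comp Primrec.fst))
  have t : Primrec fun z : β => z.1.2.2.2 :=
    Primrec.snd.comp (Primrec.snd.comp (Primrec.snd.comp Primrec.fst))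
  have w : Primrec fun z : β => z.1.1 := Primrec.fst.comp Primrec.fst
  have p : Primrec fun z : β => z.2.1 := Primrec.fst.comp Primrec.snd
  have hnew : Primrec fun z : β => newR eV (num (true :: z.2.2) - 1) z.1.2.2.1 z.1.2.2.2 :=
    (prim_newR heV).comp (Primrec.pair (Primrec.pair n a) t)
  have hcnt : Primrec fun z : β => cntR eV (num (true :: z.2.2) - 1) z.1.2.2.1 z.1.2.2.2 :=
    (prim_cntR heV).comp (Primrec.pair (Primrec.pair n a) t)
  have hok : Primrec fun z : β => okN z.1.1 z.2.1 z.1.2.2.1
      (cntR eV (num (true :: z.2.2) - 1) z.1.2.2.1 z.1.2.2.2) :=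
    primrec_okN.comp (Primrec.pair (Primrec.pair w p) (Primrec.pair a hcnt))
  have body : Primrec fun z : γ => bif okN z.1.1.1 z.1.2.1 z.1.1.2.2.1
      (cntR eV (num (true :: z.1.2.2) - 1) z.1.1.2.2.1 z.1.1.2.2.2) then some z.2 else none :=
    Primrec.cond (hok.comp Primrec.fst) (Primrec.option_some.comp Primrec.snd)
      (Primrec.const none)
  have h1 : Primrec fun z : β =>
      (newR eV (num (true :: z.2.2) - 1) z.1.2.2.1 z.1.2.2.2).bind fun x =>
        bif okN z.1.1 z.2.1 z.1.2.2.1
          (cntR eV (num (true :: z.2.2) - 1) z.1.2.2.1 z.1.2.2.2) then some x else none :=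
    Primrec.option_bind hnew body.to₂
  have h0 : Primrec fun z : List Bool × ℕ × ℕ × ℕ => eU z.2.1 :=
    heU.comp (Primrec.fst.comp Primrec.snd)
  exact Primrec.option_bind h0 h1.to₂

theorem primrec_outN (heV : Primrec eV) (heU : Primrec eU) : Primrec₂ (outN eV eU) := by
  have k1 : Primrec fun k : ℕ => k.unpair.1 := Primrec.fst.comp Primrec.unpair
  have k2 : Primrec fun k : ℕ => k.unpair.2.unpair.1 :=
    Primrec.fst.comp (Primrec.unpair.comp (Primrec.snd.comp Primrec.unpair))
  have k3 : Primrec fun k : ℕ => k.unpair.2.unpair.2 :=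
    Primrec.snd.comp (Primrec.unpair.comp (Primrec.snd.comp Primrec.unpair))
  have h : Primrec fun z : List Bool × ℕ => (z.1, z.2.unpair.1, z.2.unpair.2.unpair.1,
      z.2.unpair.2.unpair.2) :=
    Primrec.pair Primrec.fst (Primrec.pair (k1.comp Primrec.snd) (Primrec.pair
      (k2.comp Primrec.snd) (k3.comp Primrec.snd)))
  exact Primrec₂.mk ((primrec_outA heV heU).comp h)

theorem partrec_machN (heV : Primrec eV) (heU : Primrec eU) : Partrec (machN eV eU) :=
  Partrec.rfindOpt (primrec_outN heV heU).to_comp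

theorem mem_machN {w x : List Bool} (h : x ∈ machN eV eU w) : ∃ k, outN eV eU w k = some x :=
  Nat.rfindOpt_spec h

theorem dom_machN {w : List Bool} : (machN eV eU w).Dom ↔ ∃ k x, outN eV eU w k = some x := by
  unfold machN
  rw [Nat.rfindOpt_dom]
  rfl

variable {U V : List Bool →. List Bool}

theorem outN_unique (hU : PrefixFree U) (heU2 : ∀ q x, x ∈ U q ↔ ∃ n, eU n = some (q, x))
    {w w' : List Bool} (hww : w <+: w') {k k' : ℕ} {x x' : List Bool}
    (h : outN eV eU w k = some x) (h' : outN eV eU w' k' = some x') : w = w' ∧ x = x' := by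
  obtain ⟨p, ν, s, a1, a2, a3, a4, a5⟩ := outN_eq.1 h
  obtain ⟨p', ν', s', b1, b2, b3, b4, b5⟩ := outN_eq.1 h'
  have hp : p = p' := by
    have c1 : (U p).Dom := Part.dom_iff_mem.2 ⟨ν, (heU2 p ν).2 ⟨_, a1⟩⟩
    have c2 : (U p').Dom := Part.dom_iff_mem.2 ⟨ν', (heU2 p' ν').2 ⟨_, b1⟩⟩
    have d1 : p <+: w' := by
      refine List.IsPrefix.trans ?_ hww
      rw [a3, List.append_assoc]
      exact List.prefix_append _ _
    have d2 : p' <+: w' := by
      rw [b3, List.append_assoc]
      exact List.prefix_append _ _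
    rcases List.prefix_or_prefix_of_prefix d1 d2 with h | h
    · exact hU.2 _ _ c1 c2 h
    · exact (hU.2 _ _ c2 c1 h).symm
  subst hp
  have hν : ν = ν' := Part.mem_unique ((heU2 p ν).2 ⟨_, a1⟩) ((heU2 p ν').2 ⟨_, b1⟩)
  subst hν
  set a := k.unpair.2.unpair.1
  set a' := k'.unpair.2.unpair.1
  have hpre : List.replicate a true ++ (false :: s) <+: List.replicate a' true ++ (false :: s') := by
    rw [a3, b3] at hww
    have hww' : p ++ (List.replicate a true ++ (false :: s)) <+:
        p ++ (List.replicate a' true ++ (false :: s')) := by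
      simpa only [List.append_assoc, List.singleton_append] using hww
    exact (List.prefix_append_right_inj p).1 hww'
  have haa : a = a' := by
    obtain ⟨z, hz⟩ := hpre
    have e1 : (List.replicate a true ++ (false :: s) ++ z).idxOf false = a := by
      rw [List.append_assoc, List.idxOf_append_of_notMem (by simp [List.mem_replicate])]
      simp
    have e2 : (List.replicate a' true ++ (false :: s')).idxOf false = a' := by
      rw [List.idxOf_append_of_notMem (by simp [List.mem_replicate])]
      simp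
    rw [hz, e2] at e1
    exact e1.symm
  rw [haa, List.prefix_append_right_inj, List.cons_prefix_cons] at hpre
  have hs : s = s' := hpre.2.eq_of_length (by rw [a4, b4, haa])
  refine ⟨by rw [a3, b3, haa, hs], ?_⟩
  rw [hs, haa] at a5
  rw [haa] at a2
  have ht := cntR_inj (Option.isSome_iff_exists.2 ⟨x, a2⟩)
    (Option.isSome_iff_exists.2 ⟨x', b2⟩) (a5.symm.trans b5)
  rw [ht, b2] at a2
  exact (Option.some_injective _ a2).symm

theorem prefixFree_machN (heV : Primrec eV) (heU : Primrec eU) (hU : PrefixFree U)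
    (heU2 : ∀ q x, x ∈ U q ↔ ∃ n, eU n = some (q, x)) : PrefixFree (machN eV eU) := by
  refine ⟨partrec_machN heV heU, ?_⟩
  intro w w' hw hw' hww
  obtain ⟨k, x, h⟩ := dom_machN.1 hw
  obtain ⟨k', x', h'⟩ := dom_machN.1 hw'
  exact (outN_unique hU heU2 hww h h').1

/-- **Rich strings have small complexity.** -/
theorem rich_complexity (hV : OptimalPlain V) (hU : OptimalPrefixFree U) :
    ∃ (eV : ℕ → Option (List Bool × List Bool)) (c : ℕ),
      (∀ q x, x ∈ V q ↔ ∃ n, eV n = some (q, x)) ∧
      ∀ (n a : ℕ) (x : List Bool) (t : ℕ), richT eV n a x t →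
        cx U x ≤ cx U (natStr n) + 2 * a + c := by
  obtain ⟨eV, heV, heV2, heV3⟩ := enum_graph hV.1
  obtain ⟨eU, heU, heU2, heU3⟩ := enum_graph hU.1.1
  obtain ⟨c, hc⟩ := hU.2 _ (prefixFree_machN heV heU hU.1 heU2)
  refine ⟨eV, c + 3, heV2, fun n a x t hx => ?_⟩
  -- the shortest program of `n`
  have hex : ∃ p, natStr n ∈ U p := by
    have hid : PrefixFree (fun w : List Bool => (if w = [] then some (natStr n) else none :
        Option (List Bool))) := by
      refine ⟨Computable.ofOption (Primrec.ite (Primrec.eq.comp Primrec.id (Primrec.const []))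
        (Primrec.const (some (natStr n))) (Primrec.const none)).to_comp, ?_⟩
      intro p q hp hq _
      by_cases h1 : p = []
      · by_cases h2 : q = []
        · rw [h1, h2]
        · simp [h2] at hq
      · simp [h1] at hp
    obtain ⟨c', hc'⟩ := hU.2 _ hid
    obtain ⟨q, -, hq⟩ := hc' [] (natStr n) (by simp)
    exact ⟨q, hq⟩
  obtain ⟨p, hp, hpU⟩ := cx_spec hex
  obtain ⟨i, hi⟩ := (heU2 p _).1 hpU
  obtain ⟨t', ht'⟩ := exists_newR hx
  obtain ⟨s, hs1, hs2⟩ := exists_num (cntR_bound heV3 (n := n) (a := a) (t := t'))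
  have hk : outN eV eU (p ++ (List.replicate a true ++ [false]) ++ s)
      (Nat.pair i (Nat.pair a t')) = some x := by
    rw [outN_eq]
    simp only [Nat.unpair_pair]
    refine ⟨p, natStr n, s, hi, ?_, rfl, hs1, ?_⟩
    · rw [num_natStr, Nat.add_sub_cancel]
      exact ht'
    · rw [num_natStr, Nat.add_sub_cancel]
      exact hs2
  have hdom : (machN eV eU (p ++ (List.replicate a true ++ [false]) ++ s)).Dom :=
    dom_machN.2 ⟨_, _, hk⟩
  obtain ⟨k', hk'⟩ := mem_machN (Part.get_mem hdom)
  have hx' := (outN_unique hU.1 heU2 List.prefix_rfl hk hk').2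
  have hmem : x ∈ machN eV eU (p ++ (List.replicate a true ++ [false]) ++ s) := by
    rw [hx']
    exact Part.get_mem hdom
  obtain ⟨q, hq, hqx⟩ := hc _ _ hmem
  have h1 := cx_le hqx
  rw [List.length_append, List.length_append, List.length_append, List.length_replicate,
    List.length_singleton, hs1, hp] at hq
  omega

end Rich

end Q217.KT
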