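import Pool.Agent.Q217.KT.Mach

set_option autoImplicit false

/-! The averaging argument. -/

namespace Q217.KT

open MeasureTheory

variable {U V : List Bool →. List Bool}

theorem plain_exists (hV : OptimalPlain V) (x : List Bool) : ∃ q, x ∈ V q := by
  obtain ⟨c, hc⟩ := hV.2 (fun w => Part.some w) Computable.id
  obtain ⟨q, -, hq⟩ := hc x x (Part.mem_some x)
  exact ⟨q, hq⟩

theorem plain_le_length (hV : OptimalPlain V) : ∃ c : ℕ, ∀ x, cx V x ≤ x.length + c := by
  obtain ⟨c, hc⟩ := hV.2 (fun w => Part.some w) Computable.id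
  refine ⟨c, fun x => ?_⟩
  obtain ⟨q, hq, hx⟩ := hc x x (Part.mem_some x)
  exact (cx_le hx).trans hq

theorem plain_length_le (hV : OptimalPlain V) :
    ∃ c : ℕ, ∀ y, cx V (natStr y.length) ≤ cx V y + c := by
  have hM : Partrec fun w => (V w).map fun y => natStr y.length := by
    refine Partrec.map hV.1 ?_
    exact ((primrec_natStr.comp (Primrec.list_length.comp Primrec.snd)).to_comp).to₂
  obtain ⟨c, hc⟩ := hV.2 _ hM
  refine ⟨c, fun y => ?_⟩
  obtain ⟨p, hp, hpy⟩ := cx_spec (plain_exists hV y)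
  obtain ⟨q, hq, hx⟩ := hc p (natStr y.length) (Part.mem_map _ hpy)
  rw [← hp]
  exact (cx_le hx).trans hq

section Measure

variable {μ : Measure (ℕ → Bool)} [IsProbabilityMeasure μ]

theorem mem_cyl_ofFn {n : ℕ} {f : Fin n → Bool} {X : ℕ → Bool} :
    X ∈ cyl (List.ofFn f) ↔ ∀ i : Fin n, X i = f i := by
  unfold cyl
  constructor
  · intro h i
    have h1 := h i (by rw [List.length_ofFn]; exact i.2)
    rw [List.getElem_ofFn] at h1
    exact h1
  · intro h i hi
    rw [List.getElem_ofFn]
    rw [List.length_ofFn] at hi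
    exact h ⟨i, hi⟩

theorem measurable_cyl (x : List Bool) : MeasurableSet (cyl x) := by
  unfold cyl
  rw [Set.setOf_forall]
  refine MeasurableSet.iInter fun i => ?_
  rw [Set.setOf_forall]
  refine MeasurableSet.iInter fun h => ?_
  exact measurableSet_preimage (measurable_pi_apply (X := fun _ : ℕ => Bool) i)
    (measurableSet_singleton x[i])

theorem disjoint_cyl {n : ℕ} {f g : Fin n → Bool} (h : f ≠ g) :
    Disjoint (cyl (List.ofFn f)) (cyl (List.ofFn g)) := by
  rw [Set.disjoint_left]
  intro X hX hX'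
  rw [mem_cyl_ofFn] at hX hX'
  exact h (funext fun i => (hX i).symm.trans (hX' i))

/-- The restriction of a string. -/
def restr {n l : ℕ} (h : n ≤ l) (g : Fin l → Bool) : Fin n → Bool := fun i => g (Fin.castLE h i)

theorem ofFn_take {n l : ℕ} (h : n ≤ l) (g : Fin l → Bool) :
    (List.ofFn g).take n = List.ofFn (restr h g) := by
  refine List.ext_getElem ?_ fun i h1 h2 => ?_
  · rw [List.length_take, List.length_ofFn, List.length_ofFn]
    exact min_eq_left h
  · rw [List.getElem_take, List.getElem_ofFn, List.getElem_ofFn]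
    rfl

theorem cyl_eq {n l : ℕ} (h : n ≤ l) (f : Fin n → Bool) : μ.real (cyl (List.ofFn f)) =
    ∑ g ∈ Finset.univ.filter fun g : Fin l → Bool => restr h g = f,
      μ.real (cyl (List.ofFn g)) := by
  classical
  rw [← measureReal_biUnion_finset]
  · congr 1
    ext X
    simp only [Set.mem_iUnion, Finset.mem_filter, Finset.mem_univ, true_and]
    constructor
    · intro hX
      rw [mem_cyl_ofFn] at hX
      refine ⟨fun i => X i, funext fun i => hX i, ?_⟩
      rw [mem_cyl_ofFn]
      intro i
      rfl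
    · rintro ⟨g, hg, hX⟩
      rw [mem_cyl_ofFn] at hX ⊢
      intro i
      rw [← hg]
      exact hX (Fin.castLE h i)
  · intro g _ g' _ hne
    exact disjoint_cyl hne
  · intro g _
    exact measurable_cyl _

theorem sum_cyl (n : ℕ) : ∑ f : Fin n → Bool, μ.real (cyl (List.ofFn f)) = 1 := by
  classical
  rw [← measureReal_biUnion_finset]
  · have : (⋃ f ∈ (Finset.univ : Finset (Fin n → Bool)), cyl (List.ofFn f)) = Set.univ := by
      rw [Set.eq_univ_iff_forall]
      intro X
      simp only [Set.mem_iUnion]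
      refine ⟨fun i => X i, Finset.mem_univ _, ?_⟩
      rw [mem_cyl_ofFn]
      intro i
      rfl
    rw [this]
    simp
  · intro g _ g' _ hne
    exact disjoint_cyl hne
  · intro g _
    exact measurable_cyl _

end Measure

theorem hit_iff (hV : OptimalPlain V) {eV : ℕ → Option (List Bool × List Bool)}
    (he2 : ∀ q x, x ∈ V q ↔ ∃ n, eV n = some (q, x)) {n l b : ℕ} {x : List Bool} :
    (∃ t, hitT eV n l b x t) ↔ ∃ y : List Bool, y.length = l ∧ y.take n = x ∧ cx V y ≤ b := by
  constructor
  · rintro ⟨t, i, -, o, ho, h1, h2, h3⟩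
    have ho' : eV i = some (o.1, o.2) := by
      cases h : eV i with
      | none => rw [h] at ho; exact absurd ho (by simp)
      | some o' =>
        rw [h] at ho
        simp only [Option.toList_some, List.mem_singleton] at ho
        rw [ho]
    exact ⟨o.2, h2, h3, (cx_le ((he2 _ _).2 ⟨i, ho'⟩)).trans h1⟩
  · rintro ⟨y, h1, h2, h3⟩
    obtain ⟨p, hp, hpy⟩ := cx_spec (plain_exists hV y)
    obtain ⟨i, hi⟩ := (he2 _ _).1 hpy
    refine ⟨i + 1, i, List.mem_range.2 (Nat.lt_succ_self i), (p, y), by rw [hi]; simp, ?_, h1, h2⟩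
    show p.length ≤ b
    rw [hp]
    exact h3

open Classical in
/-- If `x` is never rich then few lengths are good. -/
theorem few_hits (hV : OptimalPlain V) {eV : ℕ → Option (List Bool × List Bool)}
    (he2 : ∀ q x, x ∈ V q ↔ ∃ n, eV n = some (q, x)) {n a : ℕ} {x : List Bool}
    (hx : x.length = n) (h : ∀ t, ¬ richT eV n a x t) :
    2 * ((Finset.range (2 ^ n)).filter fun m =>
      ∃ y : List Bool, y.length = 2 ^ n - 1 + m ∧ y.take n = x ∧ cx V y ≤ n + a).card < 2 ^ n := by
  set S := (Finset.range (2 ^ n)).filter fun m =>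
      ∃ y : List Bool, y.length = 2 ^ n - 1 + m ∧ y.take n = x ∧ cx V y ≤ n + a with hS
  have hch : ∀ m ∈ S, ∃ t, hitT eV n (2 ^ n - 1 + m) (n + a) x t := fun m hm =>
    (hit_iff hV he2).2 (Finset.mem_filter.1 hm).2
  choose! T hT using hch
  have h1 := h (S.sup T)
  have h2 : S.card ≤ cnt eV n a x (S.sup T) := by
    unfold cnt
    rw [Finset.card_eq_sum_ones]
    refine (Finset.sum_le_sum fun m hm => ?_).trans (Finset.sum_le_sum_of_subset
      (Finset.filter_subset _ _) (f := fun m =>
        if hitT eV n (2 ^ n - 1 + m) (n + a) x (S.sup T) then 1 else 0))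
    rw [if_pos (hitT_mono (Finset.le_sup hm) (hT m hm))]
  by_contra hcon
  rw [not_lt] at hcon
  exact h1 ⟨hx, hcon.trans (Nat.mul_le_mul_left 2 h2)⟩

/-- **Theorem.** -/
theorem main (hV : OptimalPlain V) (hU : OptimalPrefixFree U) (μ : Measure (ℕ → Bool))
    [IsProbabilityMeasure μ] (h : TrivialMeasure V μ) : TrivialMeasure U μ := by
  classical
  obtain ⟨c, hc⟩ := h
  obtain ⟨c1, hc1⟩ := plain_le_length hV
  obtain ⟨c2, hc2⟩ := plain_length_le hV
  obtain ⟨eV, c3, he2, hc3⟩ := rich_complexity hV hU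
  refine ⟨c3 + 2 * (1 + c1) + 4 * (c + c2), fun n => ?_⟩
  set N : ℕ := 2 ^ n with hN
  have hNpos : (0 : ℝ) < N := by rw [hN]; positivity
  have hnl : ∀ m, n ≤ N - 1 + m := fun m => by
    have : n < 2 ^ n := Nat.lt_two_pow_self
    omega
  have hlog : ∀ m < N, (natStr (N - 1 + m)).length = n := by
    intro m hm
    rw [natStr_length]
    have h0 : 0 < 2 ^ n := by positivity
    rw [Nat.log_eq_iff (Or.inr ⟨by norm_num, by omega⟩)]
    constructor
    · omega
    · rw [pow_succ]; omega
  -- the excess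
  let D : List Bool → ℝ := fun y => (cx V y : ℝ) - cx V (natStr y.length) + c2
  have hD0 : ∀ y, 0 ≤ D y := by
    intro y
    have h1 : (cx V (natStr y.length) : ℝ) ≤ cx V y + c2 := by exact_mod_cast hc2 y
    show 0 ≤ (cx V y : ℝ) - cx V (natStr y.length) + c2
    linarith
  have hsumD : ∀ l, ∑ g : Fin l → Bool, μ.real (cyl (List.ofFn g)) * D (List.ofFn g) ≤
      c + c2 := by
    intro l
    have e1 : ∑ g : Fin l → Bool, μ.real (cyl (List.ofFn g)) * D (List.ofFn g) =
        avg V μ l - cx V (natStr l) + c2 := by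
      have e2 : ∀ g : Fin l → Bool, μ.real (cyl (List.ofFn g)) * D (List.ofFn g) =
          μ.real (cyl (List.ofFn g)) * (cx V (List.ofFn g) : ℝ) +
          μ.real (cyl (List.ofFn g)) * (c2 - cx V (natStr l)) := by
        intro g
        show _ * ((cx V (List.ofFn g) : ℝ) - cx V (natStr (List.ofFn g).length) + c2) = _
        rw [List.length_ofFn]
        ring
      rw [Finset.sum_congr rfl fun g _ => e2 g, Finset.sum_add_distrib, ← Finset.sum_mul,
        sum_cyl]
      unfold avg
      ring
    rw [e1]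
    have := hc l
    linarith
  -- the contribution of a string `f`
  let R : (m : ℕ) → (Fin n → Bool) → ℝ := fun m f =>
    ∑ g ∈ Finset.univ.filter fun g : Fin (N - 1 + m) → Bool => restr (hnl m) g = f,
      μ.real (cyl (List.ofFn g)) * D (List.ofFn g)
  have hR0 : ∀ m f, 0 ≤ R m f := fun m f =>
    Finset.sum_nonneg fun g _ => mul_nonneg measureReal_nonneg (hD0 _)
  have hRsum : ∀ m, ∑ f, R m f ≤ c + c2 := by
    intro m
    refine le_trans (le_of_eq ?_) (hsumD (N - 1 + m))
    exact Finset.sum_fiberwise Finset.univ (fun g : Fin (N - 1 + m) → Bool => restr (hnl m) g)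
      (fun g => μ.real (cyl (List.ofFn g)) * D (List.ofFn g))
  let K0 : ℝ := cx U (natStr n)
  have key : ∀ f : Fin n → Bool, (N : ℝ) / 2 * (μ.real (cyl (List.ofFn f)) *
      (((cx U (List.ofFn f) : ℝ) - K0 - c3) / 2 - 1 - c1)) ≤ ∑ m ∈ Finset.range N, R m f := by
    intro f
    set x := List.ofFn f with hx
    have hxl : x.length = n := by rw [hx, List.length_ofFn]
    have hμ0 : 0 ≤ μ.real (cyl x) := measureReal_nonneg
    by_cases hB : ((cx U x : ℝ) - K0 - c3) / 2 - 1 - c1 ≤ 0
    · refine le_trans ?_ (Finset.sum_nonneg fun m _ => hR0 m f)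
      exact mul_nonpos_of_nonneg_of_nonpos (by positivity)
        (mul_nonpos_of_nonneg_of_nonpos hμ0 hB)
    · rw [not_le] at hB
      obtain ⟨d, hd⟩ : ∃ d : ℕ, cx U x = cx U (natStr n) + c3 + (d + 1) := by
        refine ⟨cx U x - (cx U (natStr n) + c3 + 1), ?_⟩
        have h1 : (cx U (natStr n) : ℝ) + c3 < cx U x := by
          have : K0 = cx U (natStr n) := rfl
          have hc1' : (0 : ℝ) ≤ c1 := Nat.cast_nonneg _
          linarith
        have h2 : cx U (natStr n) + c3 < cx U x := by exact_mod_cast h1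
        omega
      have hnr : ∀ t, ¬ richT eV n (d / 2) x t := by
        intro t ht
        have := hc3 n (d / 2) x t ht
        omega
      have hfew := few_hits hV he2 hxl hnr
      set S := (Finset.range (2 ^ n)).filter fun m =>
        ∃ y : List Bool, y.length = 2 ^ n - 1 + m ∧ y.take n = x ∧ cx V y ≤ n + d / 2 with hS
      set B : ℝ := ((cx U x : ℝ) - K0 - c3) / 2 - 1 - c1 with hBdef
      have hgood : ∀ m ∈ Finset.range N \ S, μ.real (cyl x) * B ≤ R m f := by
        intro m hm
        rw [Finset.mem_sdiff] at hm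
        have hmN := Finset.mem_range.1 hm.1
        have h1 : μ.real (cyl x) * B = ∑ g ∈ Finset.univ.filter fun g : Fin (N - 1 + m) → Bool =>
            restr (hnl m) g = f, μ.real (cyl (List.ofFn g)) * B := by
          rw [← Finset.sum_mul, hx, ← cyl_eq (hnl m) f]
        rw [h1]
        refine Finset.sum_le_sum fun g hg => mul_le_mul_of_nonneg_left ?_ measureReal_nonneg
        have hg' := (Finset.mem_filter.1 hg).2
        have h2 : n + d / 2 < cx V (List.ofFn g) := by
          by_contra hcon
          rw [not_lt] at hcon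
          refine hm.2 (Finset.mem_filter.2 ⟨hm.1, List.ofFn g, ?_, ?_, hcon⟩)
          · rw [List.length_ofFn]
          · rw [ofFn_take (hnl m), hg']
        have h3 := hc1 (natStr (N - 1 + m))
        rw [hlog m hmN] at h3
        show B ≤ (cx V (List.ofFn g) : ℝ) - cx V (natStr (List.ofFn g).length) + c2
        rw [List.length_ofFn]
        have h4 : (n : ℝ) + ((d / 2 : ℕ) : ℝ) + 1 ≤ cx V (List.ofFn g) := by exact_mod_cast h2
        have h5 : (cx V (natStr (N - 1 + m)) : ℝ) ≤ n + c1 := by exact_mod_cast h3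
        have h6 : (d : ℝ) ≤ 2 * ((d / 2 : ℕ) : ℝ) + 1 := by
          have : d ≤ 2 * (d / 2) + 1 := by omega
          exact_mod_cast this
        have h7 : (cx U x : ℝ) = K0 + c3 + (d + 1) := by
          have : K0 = cx U (natStr n) := rfl
          rw [this]
          exact_mod_cast hd
        have h8 : (0 : ℝ) ≤ c2 := Nat.cast_nonneg _
        rw [hBdef, h7]
        linarith
      have hcard : (N : ℝ) / 2 ≤ ((Finset.range N \ S).card : ℝ) := by
        have h1 : (Finset.range N \ S).card = N - S.card := by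
          rw [Finset.card_sdiff_of_subset (Finset.filter_subset _ _), Finset.card_range]
        have h2 : N ≤ 2 * (Finset.range N \ S).card := by
          rw [h1]
          omega
        have h3 : (N : ℝ) ≤ 2 * ((Finset.range N \ S).card : ℝ) := by exact_mod_cast h2
        linarith
      calc (N : ℝ) / 2 * (μ.real (cyl x) * B) ≤
          ((Finset.range N \ S).card : ℝ) * (μ.real (cyl x) * B) :=
            mul_le_mul_of_nonneg_right hcard (mul_nonneg hμ0 hB.le)
        _ = ∑ m ∈ Finset.range N \ S, μ.real (cyl x) * B := by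
            rw [Finset.sum_const, nsmul_eq_mul]
        _ ≤ ∑ m ∈ Finset.range N \ S, R m f := Finset.sum_le_sum hgood
        _ ≤ ∑ m ∈ Finset.range N, R m f :=
            Finset.sum_le_sum_of_subset_of_nonneg Finset.sdiff_subset fun m _ _ => hR0 m f
  have htotal : (N : ℝ) / 2 * ∑ f : Fin n → Bool, (μ.real (cyl (List.ofFn f)) *
      (((cx U (List.ofFn f) : ℝ) - K0 - c3) / 2 - 1 - c1)) ≤ N * (c + c2) := by
    rw [Finset.mul_sum]
    refine (Finset.sum_le_sum fun f _ => key f).trans ?_
    rw [Finset.sum_comm]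
    refine (Finset.sum_le_sum fun m _ => hRsum m).trans (le_of_eq ?_)
    rw [Finset.sum_const, Finset.card_range, nsmul_eq_mul]
  have hexp : ∑ f : Fin n → Bool, (μ.real (cyl (List.ofFn f)) *
      (((cx U (List.ofFn f) : ℝ) - K0 - c3) / 2 - 1 - c1)) =
      (avg U μ n - K0 - c3) / 2 - 1 - c1 := by
    have e2 : ∀ f : Fin n → Bool, (μ.real (cyl (List.ofFn f)) *
        (((cx U (List.ofFn f) : ℝ) - K0 - c3) / 2 - 1 - c1)) =
        (μ.real (cyl (List.ofFn f)) * (cx U (List.ofFn f) : ℝ)) * (1 / 2) +
        μ.real (cyl (List.ofFn f)) * ((- K0 - c3) / 2 - 1 - c1) := by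
      intro f
      ring
    rw [Finset.sum_congr rfl fun f _ => e2 f, Finset.sum_add_distrib, ← Finset.sum_mul,
      ← Finset.sum_mul, sum_cyl]
    unfold avg
    ring
  rw [hexp] at htotal
  have h1 : ((avg U μ n - K0 - c3) / 2 - 1 - c1) ≤ 2 * (c + c2) := by
    by_contra hcon
    rw [not_le] at hcon
    have : (N : ℝ) / 2 * (2 * (c + c2)) < (N : ℝ) / 2 *
      ((avg U μ n - K0 - c3) / 2 - 1 - c1) := mul_lt_mul_of_pos_left hcon (by positivity)
    have e : (N : ℝ) / 2 * (2 * (c + c2)) = N * (c + c2) := by ring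
    linarith
  show avg U μ n ≤ K0 + (c3 + 2 * (1 + c1) + 4 * (c + c2))
  linarith

end Q217.KT
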